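import Pool.Agent.H458.AG.Def

/-!
# Project AG (helper458), task FEW (helper102): few polynomials are good at few primes

Adapted from `Pool/Agent/H350/AU458/FEW.lean` (helper350, genus one).
-/

set_option autoImplicit false

open Polynomial Matrix IsDedekindDomain NumberField
open scoped Classical

namespace Pool.Agent.H102.AG458

open Pool.Agent.H458.AG
open Pool.Agent.H458.AU (PrQ S_CHEB)
open Pool.Agent.N783.PF (Bd Cg sp rd Ht)
open Pool.Agent.N352.PJ (dd)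

variable {F : Type} [Field F] [NumberField F]

lemma card_quot {q : ℕ} (hq : q ≠ 0) : Finite (𝓞 F ⧸ sp F q) ∧
    Nat.card (𝓞 F ⧸ sp F q) = q ^ Module.finrank ℚ F := by
  have h1 : sp F q ≠ ⊥ := by
    rw [sp, Ne, Ideal.span_singleton_eq_bot]
    exact_mod_cast hq
  refine ⟨Ideal.finiteQuotientOfFreeOfNeBot _ h1, ?_⟩
  have h2 : Nat.card (𝓞 F ⧸ sp F q) = Ideal.absNorm (sp F q) := by
    rw [Ideal.absNorm_apply, Submodule.cardQuot_apply]
  rw [h2, sp, Ideal.absNorm_span_natCast, RingOfIntegers.rank]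

lemma cheb' (h2 : S_CHEB) (ι : Type) [Fintype ι] (R : ι → Type) [∀ i, Fintype (R i)]
    [∀ i, Nonempty (R i)] (G : ∀ i, Finset (R i)) (M : ℝ)
    (hM : M = ∑ i, ((G i).card : ℝ) / Fintype.card (R i)) (hp : 0 < M) :
    ∃ BadR : Finset (∀ i, R i), (∀ ρ, ρ ∈ BadR ↔ ((Nat.card {i // ρ i ∈ G i} : ℕ) : ℝ) < 9 / 10 * M) ∧
      (BadR.card : ℝ) * M ≤ 100 * Nat.card (∀ i, R i) := by
  have h := h2 ι R G M hM hp
  refine ⟨_, fun ρ => ?_, h.trans (le_of_eq (by rw [Fintype.card_eq_nat_card]))⟩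
  rw [Finset.mem_filter]
  have e : ((Finset.univ : Finset ι).filter fun i => ρ i ∈ G i).card = Nat.card {i // ρ i ∈ G i} := by
    rw [Nat.card_eq_fintype_card, Fintype.card_subtype]
  rw [e]
  exact ⟨fun h => h.2, fun h => ⟨Finset.mem_univ _, h⟩⟩

theorem few (h1 : Pool.Agent.H458.AG.S_FIB) (h2 : Pool.Agent.H458.AU.S_CHEB) :
    Pool.Agent.H458.AG.S_FEW := by
  intro F _ _ g hg ε hε
  obtain ⟨C, hC, hfib⟩ := h1 F g hg
  have hC0 : (0 : ℝ) < C := by exact_mod_cast hC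
  refine ⟨100 * C / ε, by positivity, fun W T 𝔮 hT hM => ⟨C * ∏ q ∈ T, q, fun B hB => ?_⟩⟩
  obtain ⟨M, hMd⟩ : ∃ M : ℝ, M = ∑ q ∈ T, dl g q (𝔮 q) := ⟨_, rfl⟩
  rw [← hMd] at hM ⊢
  have hMpos : 0 < M := lt_of_lt_of_le (by positivity) hM
  have hpr : ∀ q ∈ T, q ≠ 0 := fun q hq => (hT q hq).pr.ne_zero
  obtain ⟨D, hD⟩ : ∃ D : ℕ, D = Module.finrank ℚ F := ⟨_, rfl⟩
  rw [← hD]
  have hht : {f : (𝓞 F)[X] | Ht g B f}.Finite := by
    have h3 : C * ∏ q ∈ (∅ : Finset ℕ), q ≤ B := by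
      rw [Finset.prod_empty, mul_one]
      refine le_trans ?_ hB
      have h4 : 1 ≤ ∏ q ∈ T, q := Finset.prod_pos fun q hq => Nat.pos_of_ne_zero (hpr q hq)
      exact Nat.le_mul_of_pos_right C h4
    have h4 := (hfib ∅ (fun q => 0) B (fun q hq => absurd hq (Finset.notMem_empty q)) h3).1
    refine h4.subset fun f hf => ⟨hf, fun q hq => absurd hq (Finset.notMem_empty q)⟩
  have hfin : ∀ i : T, Finite (𝓞 F ⧸ sp F (i : ℕ)) := fun i => (card_quot (hpr i i.2)).1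
  let R : T → Type := fun i => Fin (2 * g) → 𝓞 F ⧸ sp F (i : ℕ)
  have hfinR : ∀ i : T, Finite (R i) := fun i => by
    have := hfin i
    exact inferInstanceAs (Finite (Fin (2 * g) → 𝓞 F ⧸ sp F (i : ℕ)))
  let hft : ∀ i : T, Fintype (R i) := fun i => Fintype.ofFinite (R i)
  have hne : ∀ i : T, Nonempty (R i) := fun i => ⟨fun _ => 0⟩
  have hcR : ∀ i : T, Fintype.card (R i) = (i : ℕ) ^ (2 * g * D) := by
    intro i
    rw [← Nat.card_eq_fintype_card]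
    change Nat.card (Fin (2 * g) → 𝓞 F ⧸ sp F (i : ℕ)) = _
    rw [Nat.card_fun, Nat.card_fin, (card_quot (hpr i i.2)).2, ← hD,
      ← pow_mul, mul_comm D (2 * g)]
  let G : ∀ i : T, Finset (R i) := fun i => Finset.univ.filter (fun r => r ∈ GR g (i : ℕ) (𝔮 i))
  have hG : ∀ i : T, ((G i).card : ℝ) / Fintype.card (R i) = dl g (i : ℕ) (𝔮 i) := by
    intro i
    unfold dl
    rw [hcR, ← hD]
    push_cast
    congr 2
    have h3 : (GR g (i : ℕ) (𝔮 i)) = ((G i : Finset (R i)) : Set (R i)) := by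
      ext r
      simp only [G, Finset.coe_filter, Finset.mem_univ, true_and]
      rfl
    rw [h3, Set.ncard_coe_finset]
  have hMs : M = ∑ i : T, ((G i).card : ℝ) / Fintype.card (R i) := by
    rw [Finset.sum_congr rfl (fun i _ => hG i), hMd]
    exact (Finset.sum_coe_sort T (fun q => dl g q (𝔮 q))).symm
  obtain ⟨BadR, hBadR, hcheb⟩ := cheb' h2 T R G M hMs hMpos
  have hcall : (Nat.card (∀ i : T, R i) : ℝ) = ((∏ q ∈ T, q : ℕ) : ℝ) ^ (2 * g * D) := by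
    rw [Nat.card_pi]
    have h3 : ∏ i : T, Nat.card (R i) = ∏ i : T, (i : ℕ) ^ (2 * g * D) :=
      Finset.prod_congr rfl fun i _ => by rw [Nat.card_eq_fintype_card, hcR]
    have h4 : ∏ i : T, (i : ℕ) ^ (2 * g * D) = ∏ q ∈ T, q ^ (2 * g * D) :=
      Finset.prod_coe_sort T (fun q => q ^ (2 * g * D))
    rw [h3, h4, Finset.prod_pow]
    push_cast
    rfl
  obtain ⟨P, hP⟩ : ∃ P : ℝ, P = ((∏ q ∈ T, q : ℕ) : ℝ) ^ (2 * g * D) := ⟨_, rfl⟩
  rw [hcall, ← hP] at hcheb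
  have hPpos : 0 < P := by
    rw [hP]
    have h3 : 0 < ∏ q ∈ T, q := Finset.prod_pos fun q hq => Nat.pos_of_ne_zero (hpr q hq)
    exact pow_pos (by exact_mod_cast h3) _
  -- the residues
  let Res : (𝓞 F)[X] → ∀ i : T, R i := fun f i => mkr g (i : ℕ) f
  obtain ⟨Bd, hBd⟩ : ∃ Bd : Set (𝓞 F)[X], Bd = {f : (𝓞 F)[X] | Ht g B f ∧
    ((T.filter fun q => Gq q (𝔮 q) f).card : ℝ) < 9 / 10 * M} := ⟨_, rfl⟩
  rw [← hBd]
  have hBfin : Bd.Finite := hht.subset (by rw [hBd]; exact fun f hf => hf.1)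
  have hres : ∀ f ∈ Bd, Res f ∈ BadR := by
    intro f hf
    rw [hBd] at hf
    rw [hBadR]
    refine lt_of_le_of_lt (le_of_eq ?_) hf.2
    have h3 : ∀ i : T, Res f i ∈ G i ↔ Gq (i : ℕ) (𝔮 i) f := by
      intro i
      rw [← mem_GR (hT i i.2).mem (pol_of_ht hf.1)]
      simp only [G, Finset.mem_filter, Finset.mem_univ, true_and]
      rfl
    have h4 : Nat.card {i : T // Res f i ∈ G i} =
        (T.filter fun q => Gq q (𝔮 q) f).card := by
      rw [← Nat.card_eq_finsetCard]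
      exact Nat.card_congr
        { toFun := fun i => ⟨i.1.1, Finset.mem_filter.2 ⟨i.1.2, (h3 i.1).1 i.2⟩⟩
          invFun := fun q => ⟨⟨q.1, (Finset.mem_filter.1 q.2).1⟩,
            (h3 _).2 (Finset.mem_filter.1 q.2).2⟩
          left_inv := fun i => rfl
          right_inv := fun q => rfl }
    rw [h4]
  have hfibre : ∀ ρ : ∀ i : T, R i,
      (({f ∈ hBfin.toFinset | Res f = ρ}.card : ℕ) : ℝ) * P ≤ C * (B : ℝ) ^ (D * dd g) := by
    intro ρ
    obtain ⟨h3, h4⟩ := hfib T (fun q => if h : q ∈ T then ρ ⟨q, h⟩ else fun _ => 0) B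
      (fun q hq => (hT q hq).pr) hB
    rw [← hD] at h4
    obtain ⟨Fb, hFb⟩ : ∃ Fb : Set (𝓞 F)[X], Fb = {f : (𝓞 F)[X] | Ht g B f ∧ ∀ q ∈ T,
      mkr g q f = (if h : q ∈ T then ρ ⟨q, h⟩ else fun _ => 0)} := ⟨_, rfl⟩
    rw [← hFb] at h3 h4
    have h5 : {f ∈ hBfin.toFinset | Res f = ρ}.card ≤ Fb.ncard := by
      rw [Set.ncard_eq_toFinset_card _ h3]
      refine Finset.card_le_card fun f hf => ?_
      rw [Finset.mem_filter, Set.Finite.mem_toFinset] at hf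
      rw [Set.Finite.mem_toFinset, hFb]
      have h7 := hf.1
      rw [hBd] at h7
      refine ⟨h7.1, fun q hq => ?_⟩
      have h8 := congrFun hf.2 ⟨q, hq⟩
      rw [dif_pos hq]
      exact h8
    have h9 : ((Fb.ncard : ℕ) : ℝ) * P ≤ C * (B : ℝ) ^ (D * dd g) := by
      rw [hP]
      exact_mod_cast h4
    refine le_trans ?_ h9
    exact mul_le_mul_of_nonneg_right (by exact_mod_cast h5) hPpos.le
  have hcount : (Bd.ncard : ℝ) * P ≤ (BadR.card : ℝ) * (C * (B : ℝ) ^ (D * dd g)) := by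
    rw [Set.ncard_eq_toFinset_card _ hBfin]
    rw [Finset.card_eq_sum_card_fiberwise (f := Res) (t := BadR) (fun f hf => by
      exact hres f ((Set.Finite.mem_toFinset hBfin).1 hf))]
    push_cast
    rw [Finset.sum_mul]
    refine (Finset.sum_le_card_nsmul _ _ _ fun ρ _ => hfibre ρ).trans ?_
    rw [nsmul_eq_mul]
  have hB0 : (0 : ℝ) ≤ (B : ℝ) ^ (D * dd g) := by positivity
  have hfinal : (Bd.ncard : ℝ) * M ≤ 100 * C * (B : ℝ) ^ (D * dd g) := by
    refine le_of_mul_le_mul_right ?_ hPpos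
    calc (Bd.ncard : ℝ) * M * P = ((Bd.ncard : ℝ) * P) * M := by ring
      _ ≤ ((BadR.card : ℝ) * (C * (B : ℝ) ^ (D * dd g))) * M :=
          mul_le_mul_of_nonneg_right hcount hMpos.le
      _ = ((BadR.card : ℝ) * M) * (C * (B : ℝ) ^ (D * dd g)) := by ring
      _ ≤ (100 * P) * (C * (B : ℝ) ^ (D * dd g)) :=
          mul_le_mul_of_nonneg_right hcheb (by positivity)
      _ = 100 * C * (B : ℝ) ^ (D * dd g) * P := by ring
  have h10 : (Bd.ncard : ℝ) * (100 * C / ε) ≤ 100 * C * (B : ℝ) ^ (D * dd g) :=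
    (mul_le_mul_of_nonneg_left hM (by positivity)).trans hfinal
  have h11 : (Bd.ncard : ℝ) * (100 * C / ε) = 100 * C * ((Bd.ncard : ℝ) / ε) := by ring
  rw [h11, mul_assoc 100 (C : ℝ) ((B : ℝ) ^ (D * dd g)),
    mul_assoc 100 (C : ℝ) ((Bd.ncard : ℝ) / ε)] at h10
  have h12 := le_of_mul_le_mul_left (le_of_mul_le_mul_left h10 (by norm_num)) hC0
  rw [div_le_iff₀ hε] at h12
  linarith

end Pool.Agent.H102.AG458
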